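import Pool.Agent.KS6_95.ER.Rigid
import Pool.Agent.KS6_17.ER.Segment
import Pool.Agent.KS6_17.ER.Lens

set_option autoImplicit false

/-!
# The Erdős ratio of Hilbert planes: sharp bounds and rigidity

For every Hilbert plane `1 ≤ ρ(M) ≤ 2 = ρ(H²)`. The upper bound is attained only by the hyperbolic
plane: `ρ(M) = 2` if and only if `M` is the inside of an ellipse or of a parabola (the two kinds of
Hilbert domains that are projectively equivalent to a disc). The lower bound is attained as soon as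
the projective boundary has a corner or a segment.
-/

namespace Pool.Agent.Results.MP_28bd58_gt.Rigidity

open Pool.Agent.Helper87.Erdos Pool.Agent.KS6_17.ER Set

/-- `M` is the inside of an ellipse or of a parabola: the image of the open unit disc or of
`{(x, y) | x² < y}` under an affine bijection of the plane. -/
def IsInsideOfEllipseOrParabola (M : Set (ℝ × ℝ)) : Prop :=
  ∃ T : (ℝ × ℝ) ≃ᵃ[ℝ] (ℝ × ℝ), M = T '' unitDisc ∨ M = T '' {p : ℝ × ℝ | p.1 ^ 2 < p.2}

/-- `(M, d)` is isometric to the hyperbolic plane (the unit disc with its Hilbert metric). -/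
def IsIsometricToHyperbolicPlane (M : Set (ℝ × ℝ)) : Prop :=
  ∃ φ : ℝ × ℝ → ℝ × ℝ, BijOn φ M unitDisc ∧
    ∀ X ∈ M, ∀ Y ∈ M, hdist unitDisc (φ X) (φ Y) = hdist M X Y

/-- The boundary of `M` has a corner in the plane: a boundary point `p` with two different
supporting lines `f = f p` and `g = g p`. -/
def HasCorner (M : Set (ℝ × ℝ)) : Prop :=
  ∃ p ∈ frontier M, ∃ f g : (ℝ × ℝ) →ₗ[ℝ] ℝ, LinearIndependent ℝ ![f, g] ∧
    ∀ x ∈ M, f p ≤ f x ∧ g p ≤ g x

/-- The boundary of `M` in the projective plane has a corner on the line at infinity: `M` has a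
recession direction `v ≠ 0` and lies on one side of a line `f = c` parallel to `v` (so the point at
infinity of `v` has, besides the line at infinity, the supporting line `f = c`). -/
def HasCornerAtInfinity (M : Set (ℝ × ℝ)) : Prop :=
  ∃ v : ℝ × ℝ, v ≠ 0 ∧ IsRecession M v ∧
    ∃ f : (ℝ × ℝ) →ₗ[ℝ] ℝ, f ≠ 0 ∧ f v = 0 ∧ ∃ c : ℝ, ∀ x ∈ M, c ≤ f x

/-- The boundary of `M` in the projective plane contains a segment of the line at infinity: `M` has
two linearly independent recession directions. -/
def HasSegmentAtInfinity (M : Set (ℝ × ℝ)) : Prop :=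
  ∃ v w : ℝ × ℝ, LinearIndependent ℝ ![v, w] ∧ IsRecession M v ∧ IsRecession M w

lemma cross_ne_zero {v w : ℝ × ℝ} (h : LinearIndependent ℝ ![v, w]) :
    v.1 * w.2 - v.2 * w.1 ≠ 0 := by
  rw [LinearIndependent.pair_iff] at h
  intro hD
  have h1 : w.1 • v + (-v.1) • w = 0 := by
    ext
    · simp; ring
    · simp; linarith
  have h2 : w.2 • v + (-v.2) • w = 0 := by
    ext
    · simp; linarith
    · simp; ring
  obtain ⟨a1, a2⟩ := h _ _ h1
  obtain ⟨a3, a4⟩ := h _ _ h2
  have hv : v = 0 := by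
    ext
    · simpa using a2
    · simpa using a4
  have := (h 1 0 (by rw [hv]; simp)).1
  exact one_ne_zero this

lemma isometric {M : Set (ℝ × ℝ)} (h : IsInsideOfEllipseOrParabola M) :
    IsIsometricToHyperbolicPlane M := by
  have key : ∀ (Λ : KS6_95.ER.V3 ≃ₗ[ℝ] KS6_95.ER.V3) (M : Set (ℝ × ℝ)), IsOpen M →
      KS6_95.ER.PM Λ M unitDisc → IsIsometricToHyperbolicPlane M := by
    intro Λ M hM hpm
    refine ⟨KS6_95.ER.pr Λ, ⟨fun x hx => hpm.mem hx, ?_, ?_⟩, ?_⟩
    · intro x hx y hy hxy
      rw [← hpm.pr_symm_pr hx, ← hpm.pr_symm_pr hy, hxy]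
    · intro y hy
      exact ⟨_, hpm.symm.mem hy, hpm.pr_pr_symm hy⟩
    · intro x hx y hy
      exact hpm.hdist hM isOpen_unitDisc hx hy
  obtain ⟨T, rfl | rfl⟩ := h
  · have h1 := KS6_95.ER.PM_affL T unitDisc
    exact key _ _ (h1.isOpen isOpen_unitDisc) h1.symm
  · have h1 := KS6_95.ER.PM_affL T KS6_95.ER.parab
    exact key _ _ (h1.isOpen KS6_95.ER.isOpen_parab) (h1.symm.trans KS6_95.ER.PM_psi.symm)

/-- **Erdős ratios of Hilbert planes: sharp bounds and rigidity.**
(1) For every Hilbert plane `1 ≤ ρ(M) ≤ 2 = ρ(H²)`.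
(2) Rigidity: `ρ(M) = 2` if and only if `M` is the inside of an ellipse or of a parabola, and
then `(M, d)` is isometric to the hyperbolic plane. So every Hilbert plane that is not a hyperbolic
plane has a strictly smaller Erdős ratio than the hyperbolic plane.
(3) If the boundary of `M` in the projective plane has a corner (in the plane or at infinity) or
contains a segment of the line at infinity, then `ρ(M) = 1`.
(4) The lower bound is attained also by a bounded domain, the lens `(x ± 1/2)² + y² < 5/4`. -/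
theorem result :
    (∀ M : Set (ℝ × ℝ), IsHilbertDomain M →
      1 ≤ erdosRatio M ∧ erdosRatio M ≤ erdosRatio unitDisc ∧ erdosRatio unitDisc = 2) ∧
    (∀ M : Set (ℝ × ℝ), IsHilbertDomain M →
      ((erdosRatio M = erdosRatio unitDisc ↔ IsInsideOfEllipseOrParabola M) ∧
        (¬ IsInsideOfEllipseOrParabola M → erdosRatio M < 2) ∧
        (IsInsideOfEllipseOrParabola M → IsIsometricToHyperbolicPlane M))) ∧
    (∀ M : Set (ℝ × ℝ), IsHilbertDomain M →
      (HasCorner M ∨ HasCornerAtInfinity M ∨ HasSegmentAtInfinity M) → erdosRatio M = 1) ∧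
    (IsHilbertDomain lens ∧ Bornology.IsBounded lens ∧ erdosRatio lens = 1) := by
  have hrig : ∀ M : Set (ℝ × ℝ), IsHilbertDomain M →
      (erdosRatio M = 2 ↔ IsInsideOfEllipseOrParabola M) :=
    fun M hM => KS6_95.ER.rigidity hM
  have hle : ∀ M : Set (ℝ × ℝ), IsHilbertDomain M → erdosRatio M ≤ erdosRatio unitDisc :=
    Results.MP_28bd58_gt.ErdosRatio.result
  refine ⟨fun M hM => ⟨one_le_erdosRatio hM, hle M hM, erdosRatio_unitDisc⟩, ?_, ?_,
    isHilbertDomain_lens, lens_bounded,
    le_antisymm erdosRatio_lens (one_le_erdosRatio isHilbertDomain_lens)⟩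
  · intro M hM
    refine ⟨?_, ?_, isometric⟩
    · rw [erdosRatio_unitDisc]; exact hrig M hM
    · intro h
      have h1 := hle M hM
      rw [erdosRatio_unitDisc] at h1
      exact lt_of_le_of_ne h1 (fun h2 => h ((hrig M hM).1 h2))
  · intro M hM h
    refine le_antisymm ?_ (one_le_erdosRatio hM)
    rcases h with ⟨p, hp, f, g, hind, hsup⟩ | ⟨v, hv, hrec, f, hf, hfv, c, hc⟩ |
      ⟨v, w, hind, hv, hw⟩
    · exact erdosRatio_corner hM hp hind hsup
    · exact erdosRatio_corner_inf hM hv hrec hf hfv hc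
    · exact erdosRatio_segment hM (cross_ne_zero hind) hv hw

end Pool.Agent.Results.MP_28bd58_gt.Rigidity
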